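import Pool.Agent.H43.KS.FinM
import Pool.Agent.H43.BZ.AllL
import Pool.Agent.H405.KS.LHS
import Pool.Agent.H118.KS.LTouch
import Pool.Agent.H737.BZ.LND

/-!
# Landau equation, `-2 < γ < 0`: no blow-up while the collision frequency is integrable

Let `r`, `ν` be continuous majorants of the mass density and of the collision frequency
`∫ f(w) |v-w|^γ dw` on `[0,T)` and `μ ≥ 1` continuous and nondecreasing (a velocity scale).  If
`∫_0^T (ν + μ^γ r + μ^(d+γ)) dt < ∞`, then all weighted sup norms of `f`, hence mass, energy and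
entropy densities, are bounded on `[0,T)`.  Nothing is assumed about the energy.

In particular this holds if `∫_0^T r^(1+γ/d) Φ^(-γ/d) dt < ∞` for continuous nondecreasing majorants
`r`, `Φ` of the mass density and of `f` (take `μ = r^(1/d)`; `r^(1+γ/d) Φ^(-γ/d)` is, up to a constant,
the largest value of `∫ f(w) |v-w|^γ dw` for `∫ f ≤ r`, `0 ≤ f ≤ Φ`).

Proof.  The barrier `M(t) (1+|v|²/(Lμ(t))²)^(-n)`, `n` and `L` large: at a touching point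
`Q(f,f) ≤ C f ∫ f(w) (|v-w|^γ + (Lμ)^γ (1+|w|/(Lμ))²) dw`, and the second part is controlled by the
barrier itself because `L^γ` is small.  So `f ≤ K (1+|v|²/(Lμ(t))²)^(-n)`.  By the minimal rate of
blow-up at the scale `μ(t)`, a blow-up would imply `K (Lμ(t))^(d+γ) (T-t) ≥ c` for all `t`, which
contradicts the integrability of `μ^(d+γ)`.
-/

set_option autoImplicit false

open MeasureTheory Metric Set Filter Topology
open scoped RealInnerProductSpace ENNReal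

namespace Pool.Agent.Results.MP_c15324_an.LandauCollisionFrequency

open Pool.Agent.H43.BZ Pool.Agent.H43.KS

/-- all weighted sup norms, and mass, energy and entropy densities are bounded above on `[0,T)` -/
def Regular {d : ℕ} (T : ℝ) (f : ℝ → E d → E d → ℝ) : Prop :=
  (∀ q : ℕ, ∃ B : ℝ, ∀ t ∈ Ico 0 T, ∀ x v, f t x v ≤ B * ((1 + ‖v‖) ^ q)⁻¹) ∧
  ∃ B : ℝ, ∀ t ∈ Ico 0 T, ∀ x, mass f t x ≤ B ∧ energy f t x ≤ B ∧
    ∫ v, f t x v * Real.log (f t x v) ≤ B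

theorem kin {d : ℕ} {γ : ℝ} {T : ℝ} {f : ℝ → E d → E d → ℝ} (h : SolL d γ T f) : Kin T f where
  nonneg := h.nonneg
  periodic := by
    intro t ht n x v
    have h1 := Pool.Agent.H643.BZ.per_int (fun y => f t y v) (fun y i => h.periodic t ht y v i) n x
    have h2 : (∑ i, n i • (EuclideanSpace.single i 1 : E d)) = Pool.Agent.H821.BZ.zv n := by
      ext j
      simp [Pool.Agent.H821.BZ.zv, Finset.sum_apply, Pi.single_apply]
    rw [h2] at h1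
    exact h1
  cont := h.cont
  decay := by
    intro t₂ ht₂ q
    obtain ⟨C, hC⟩ := h.decay t₂ ht₂ q
    refine ⟨C, fun t ht x v => ?_⟩
    have h1 := hC t ht x v
    have h2 : 0 < (1 + ‖v‖) ^ q := by positivity
    rw [← div_eq_mul_inv, le_div_iff₀ h2]
    linarith
  diff := h.diff

theorem touch {d : ℕ} (hd : 2 ≤ d) {γ : ℝ} (hγ : -2 < γ) (hγ0 : γ < 0) {T : ℝ}
    {f : ℝ → E d → E d → ℝ} (h : SolL d γ T f) (N : ℕ) (hN : (d : ℝ) + 6 ≤ 2 * N) :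
    ∃ C : ℝ, 0 ≤ C ∧ Touch C γ N T f := by
  obtain ⟨C, hC, hT⟩ := Pool.Agent.H118.KS.LTOUCH Pool.Agent.H737.BZ.LND Pool.Agent.H44.BZ.LHES
    Pool.Agent.H405.KS.LHS d hd N hN
  refine ⟨C, hC, fun t ht x v m μ hμ hle hv => ?_⟩
  rw [h.eqn t ht x v]
  exact hT γ hγ hγ0 (f t x) (h.smooth t ht x) (h.nonneg t ⟨ht.1.le, ht.2⟩ x) m μ hμ hle v hv

theorem reg {d : ℕ} {γ : ℝ} {T : ℝ} {f : ℝ → E d → E d → ℝ} (h : SolL d γ T f)
    (hb : ∀ q : ℕ, ∃ B : ℝ, ∀ t ∈ Ico 0 T, ∀ x v, f t x v ≤ B * ((1 + ‖v‖) ^ q)⁻¹) : Regular T f := by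
  refine ⟨hb, ?_⟩
  obtain ⟨B, hB⟩ := hb (8 * (d + 3))
  obtain ⟨B', hB'⟩ := All.hydL h.nonneg (B := |B|) (fun t ht x v => by
    refine (hB t ht x v).trans ?_
    have h1 : ((1 + ‖v‖) ^ (8 * (d + 3)))⁻¹ ≤ P d v := by
      unfold P
      have h2 : 1 + ‖v‖ ^ 2 ≤ (1 + ‖v‖) ^ 2 := by nlinarith [norm_nonneg v]
      have h3 : (1 + ‖v‖ ^ 2) ^ (4 * (d + 3)) ≤ (1 + ‖v‖) ^ (8 * (d + 3)) := by
        calc (1 + ‖v‖ ^ 2) ^ (4 * (d + 3)) ≤ ((1 + ‖v‖) ^ 2) ^ (4 * (d + 3)) :=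
              pow_le_pow_left₀ (by positivity) h2 _
          _ = (1 + ‖v‖) ^ (8 * (d + 3)) := by rw [← pow_mul]; congr 1; ring
      exact inv_anti₀ (by positivity) h3
    calc B * ((1 + ‖v‖) ^ (8 * (d + 3)))⁻¹ ≤ |B| * ((1 + ‖v‖) ^ (8 * (d + 3)))⁻¹ :=
          mul_le_mul_of_nonneg_right (le_abs_self B) (by positivity)
      _ ≤ |B| * P d v := mul_le_mul_of_nonneg_left h1 (abs_nonneg _))
  exact ⟨B', fun t ht x => hB' t ht x⟩

theorem result : ∀ d : ℕ, 2 ≤ d → ∀ γ : ℝ, -2 < γ → γ < 0 →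
    ∀ (T : ℝ) (f : ℝ → E d → E d → ℝ), 0 < T → SolL d γ T f →
    -- the criterion
    (∀ r ν μ : ℝ → ℝ, ContinuousOn r (Ico 0 T) → ContinuousOn ν (Ico 0 T) →
      ContinuousOn μ (Ico 0 T) → MonotoneOn μ (Ico 0 T) → (∀ t ∈ Ico 0 T, 1 ≤ μ t) →
      IntegrableOn (fun t => ν t + μ t ^ γ * r t + μ t ^ (γ + d)) (Ico 0 T) →
      (∀ t ∈ Ico 0 T, ∀ x, mass f t x ≤ r t ∧ ∀ v, ∫ w, f t x w * ‖v - w‖ ^ γ ≤ ν t) →
      Regular T f) ∧
    -- majorants of the mass density and of `f`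
    (∀ r Φ : ℝ → ℝ, ContinuousOn r (Ico 0 T) → ContinuousOn Φ (Ico 0 T) →
      MonotoneOn r (Ico 0 T) → MonotoneOn Φ (Ico 0 T) → 0 < r 0 → 0 < Φ 0 →
      IntegrableOn (fun t => r t ^ (1 + γ / d) * Φ t ^ (-γ / d)) (Ico 0 T) →
      (∀ t ∈ Ico 0 T, ∀ x, mass f t x ≤ r t ∧ ∀ v, f t x v ≤ Φ t) → Regular T f) ∧
    -- power rates
    (∀ a m A : ℝ, 0 ≤ a → 0 ≤ m → (1 + γ / d) * a + (-γ / d) * m < 1 →
      (∀ t ∈ Ico 0 T, ∀ x, mass f t x ≤ A * (T - t) ^ (-a) ∧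
        ∀ v, f t x v ≤ A * (T - t) ^ (-m)) → Regular T f) := by
  intro d hd γ hγ hγ0 T f hT h
  have hd2 : (2 : ℝ) ≤ d := by exact_mod_cast hd
  refine ⟨fun r ν μ hrc hνc hμc hμm hμ1 hW hb => reg h fun q => ?_,
    fun r Φ hrc hΦc hrm hΦm hr0 hΦ0 hW hb => reg h fun q => ?_,
    fun a m A ha hm h1 hb => reg h fun q => ?_⟩
  · exact critM' hd (by linarith) hγ0 hT (kin h) (touch hd hγ hγ0 h) hrc hνc hμc hμm hμ1 hW hb q
  · exact crit' hd (by linarith) hγ0 hT (kin h) (touch hd hγ hγ0 h) hrc hΦc hrm hΦm hr0 hΦ0 hW hb q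
  · exact power' hd (by linarith) hγ0 hT (kin h) (touch hd hγ hγ0 h) ha hm h1 hb q

end Pool.Agent.Results.MP_c15324_an.LandauCollisionFrequency
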