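import Pool.Agent.H43.BZ.AllL
import Pool.Agent.H737.BZ.LND

/-!
# Landau equation, `-2 < γ < 0`: blow-up criterion and minimal rate at every velocity scale

`P_R(v) = (1 + |v|²/R²)^(-4(d+3))`, `Λ_R(t) = sup_{x,v} ∫ f(t,x,w) k_R(v,w) dw` with
`k_R(v,w) = |v-w|^γ (1+|w|/R)² / (1 + (|v-w|/(R+|w|))²)`.

At a contact point of `f(t,x,·) ≤ N P_R` the Landau operator is at most `C N P_R(v) Λ_R(t)`
(nondivergence form, second order conditions at the contact point).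
-/

set_option autoImplicit false

open MeasureTheory Metric Set Filter Topology
open scoped RealInnerProductSpace ENNReal

namespace Pool.Agent.Results.MP_c15324_an.LandauScaleCriterion

open Pool.Agent.H43.BZ

/-- the upper hydrodynamic bounds hold on `[0,T)`: mass, energy and entropy densities are bounded
above -/
def UpperHB {d : ℕ} (T : ℝ) (f : ℝ → E d → E d → ℝ) : Prop :=
  ∃ B : ℝ, ∀ t ∈ Ico 0 T, ∀ x, mass f t x ≤ B ∧ energy f t x ≤ B ∧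
    ∫ v, f t x v * Real.log (f t x v) ≤ B

theorem rpow_lim {T δ c N : ℝ} (hδ : 0 < δ) (hc : 0 < c) :
    ∀ T' ∈ Ico 0 T, ∃ t ∈ Ico T' T, N * (T - t) ^ δ ≤ c := by
  intro T' hT'
  have h1 : Tendsto (fun t : ℝ => N * (T - t) ^ δ) (𝓝[<] T) (𝓝 (N * 0)) := by
    refine Tendsto.const_mul N ?_
    have h2 : Tendsto (fun t : ℝ => T - t) (𝓝[<] T) (𝓝 0) := by
      have : Tendsto (fun t : ℝ => T - t) (𝓝 T) (𝓝 (T - T)) :=
        (continuous_const.sub continuous_id).tendsto T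
      rw [sub_self] at this
      exact this.mono_left nhdsWithin_le_nhds
    have h3 : Tendsto (fun y : ℝ => y ^ δ) (𝓝 0) (𝓝 ((0 : ℝ) ^ δ)) :=
      (Real.continuousAt_rpow_const 0 δ (Or.inr hδ.le)).tendsto
    rw [Real.zero_rpow hδ.ne'] at h3
    exact h3.comp h2
  rw [mul_zero] at h1
  have h4 : ∀ᶠ t in 𝓝[<] T, N * (T - t) ^ δ ≤ c :=
    h1.eventually (eventually_le_nhds hc)
  have h5 : ∀ᶠ t in 𝓝[<] T, t ∈ Ico T' T := by
    have := Ioo_mem_nhdsLT hT'.2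
    filter_upwards [this] with t ht
    exact ⟨ht.1.le, ht.2⟩
  obtain ⟨t, h6, h7⟩ := (h4.and h5).exists
  exact ⟨t, h7, h6⟩

/-- the isentropic Euler exponents are subcritical in dimensions `2, 3, 4` -/
theorem euler {d : ℕ} (hd : 2 ≤ d) (hd4 : d ≤ 4) {γ r : ℝ} (hγ : γ < 0) (hγ2 : -2 < γ)
    (hr : 1 < r) (hr2 : r ≤ 2 * d / (d + √d)) : 0 ≤ 1 - 1 / r ∧ ((d : ℝ) + γ) * (1 - 1 / r) < 1 := by
  have hd2 : (2 : ℝ) ≤ d := by exact_mod_cast hd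
  have hd4' : (d : ℝ) ≤ 4 := by exact_mod_cast hd4
  have hs0 : 0 ≤ √(d : ℝ) := Real.sqrt_nonneg _
  have hsq : √(d : ℝ) ^ 2 = d := Real.sq_sqrt (by linarith)
  have h0 : 0 ≤ 1 - 1 / r := by
    have : 1 / r ≤ 1 := by
      rw [div_le_one (by linarith)]
      exact hr.le
    linarith
  refine ⟨h0, ?_⟩
  have hpos : 0 < (d : ℝ) + √d := by linarith
  have h1 : r * ((d : ℝ) + √d) ≤ 2 * d := (le_div_iff₀ hpos).1 hr2
  have h2 : (d : ℝ) * (1 - 1 / r) ≤ 1 := by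
    -- `d - √d ≤ 2`
    have h3 : (d : ℝ) - √d ≤ 2 := by nlinarith [hsq, hs0]
    have h4 : (1 - 1 / r) * r = r - 1 := by field_simp
    have h5 : (d : ℝ) * (r - 1) ≤ r := by nlinarith
    have h6 : (d : ℝ) * (1 - 1 / r) * r ≤ 1 * r := by
      rw [mul_assoc, h4]
      linarith
    exact le_of_mul_le_mul_right h6 (by linarith)
  rcases h0.eq_or_lt with h3 | h3
  · rw [← h3]
    norm_num
  · nlinarith

theorem result : ∀ d : ℕ, 2 ≤ d → ∀ γ : ℝ, -2 < γ → γ < 0 →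
    ∃ C c : ℝ, 0 ≤ C ∧ 0 < c ∧
    ∀ (T : ℝ) (f : ℝ → E d → E d → ℝ), 0 < T → SolL d γ T f →
    (∀ R N : ℝ, 0 < R → (∀ x v, f 0 x v ≤ N * P d (R⁻¹ • v)) → ∀ t ∈ Ico 0 T, ∀ x v,
      f t x v ≤ N * Real.exp (C * ∫ τ in (0:ℝ)..t, LamR γ 1 R f τ) * P d (R⁻¹ • v)) ∧
    (¬ UpperHB T f →
      (∀ t ∈ Ico 0 T, ∀ R N : ℝ, 0 < R → (∀ x v, f t x v ≤ N * P d (R⁻¹ • v)) →
        c < N * R ^ ((d : ℝ) + γ) * (T - t)) ∧
      (∀ a : ℝ, 0 ≤ a → ((d : ℝ) + γ) * a < 1 →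
        (∀ N : ℝ, ∀ T' ∈ Ico 0 T, ∃ t ∈ Ico T' T, ∃ x v, N * P d ((T - t) ^ a • v) < f t x v) ∧
        (∀ m : ℝ → ℝ, IntegrableOn m (Ico 0 T) →
          ∃ t ∈ Ico 0 T, m t < LamR γ 1 ((T - t) ^ (-a)) f t)) ∧
      (d ≤ 4 → ∀ r N : ℝ, 1 < r → r ≤ 2 * d / (d + √d) → ∀ T' ∈ Ico 0 T, ∃ t ∈ Ico T' T,
        ∃ x v, N * P d ((T - t) ^ (1 - 1 / r) • v) < f t x v)) := by
  intro d hd γ hγ hγ0
  have hL := Pool.Agent.H737.BZ.LND
  obtain ⟨C, hC, hfin⟩ := All.lsfin hL d hd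
  obtain ⟨c, hc, hrate⟩ := All.lsrate hL d hd γ hγ hγ0
  refine ⟨C, c, hC, hc, ?_⟩
  intro T f hT hsol
  have hup : (∃ B : ℝ, ∀ t ∈ Ico 0 T, ∀ x v, f t x v ≤ B * P d v) → UpperHB T f := by
    rintro ⟨B, hB⟩
    exact All.hydL hsol.nonneg hB
  refine ⟨fun R N hR hN => (hfin γ hγ hγ0 T f hT hsol R hR).2.2 N hN, fun hno => ?_⟩
  have hmin : ∀ t ∈ Ico 0 T, ∀ R N : ℝ, 0 < R → (∀ x v, f t x v ≤ N * P d (R⁻¹ • v)) →
      c < N * R ^ ((d : ℝ) + γ) * (T - t) := by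
    intro t ht R N hR hN
    by_contra hcon
    exact hno (hup (hrate T f hT hsol t ht N R hR hN (not_lt.1 hcon)).2)
  have hprof : ∀ a : ℝ, 0 ≤ a → ((d : ℝ) + γ) * a < 1 →
      ∀ N : ℝ, ∀ T' ∈ Ico 0 T, ∃ t ∈ Ico T' T, ∃ x v, N * P d ((T - t) ^ a • v) < f t x v := by
    intro a ha ha1 N T' hT'
    by_contra hcon
    push Not at hcon
    obtain ⟨t, ht, h1⟩ := rpow_lim (N := N) (by linarith : 0 < 1 - ((d : ℝ) + γ) * a) hc T' hT'
    have hTt : 0 < T - t := by linarith [ht.2]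
    have ht0 : t ∈ Ico 0 T := ⟨hT'.1.trans ht.1, ht.2⟩
    have h2 := hmin t ht0 ((T - t) ^ (-a)) N (Real.rpow_pos_of_pos hTt _) (by
      intro x v
      rw [Real.rpow_neg hTt.le, inv_inv]
      exact hcon t ht x v)
    have h3 : N * ((T - t) ^ (-a)) ^ ((d : ℝ) + γ) * (T - t) =
        N * (T - t) ^ (1 - ((d : ℝ) + γ) * a) := by
      rw [← Real.rpow_mul hTt.le, mul_assoc]
      congr 1
      nth_rewrite 2 [← Real.rpow_one (T - t)]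
      rw [← Real.rpow_add hTt]
      congr 1
      ring
    rw [h3] at h2
    linarith
  refine ⟨hmin, fun a ha ha1 => ⟨hprof a ha ha1, ?_⟩, ?_⟩
  · intro m hm
    by_contra hcon
    push Not at hcon
    exact hno (hup (All.lmast hL d hd γ hγ hγ0 T f hT hsol a ha ha1 m hm hcon))
  · intro hd4 r N hr hr2
    obtain ⟨h1, h2⟩ := euler hd hd4 hγ0 hγ hr hr2
    exact hprof _ h1 h2 N

end Pool.Agent.Results.MP_c15324_an.LandauScaleCriterion
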